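import Pool.Agent.Y752.QF.Stm3
import Pool.Agent.Y165.QF.Bx

set_option autoImplicit false

/-! Project QF, job QF2-BX3: the box sum and the hyperbolic sum in mean square, all sign patterns. -/

namespace Pool.Agent.Y252.QF.Bx3

open MeasureTheory Set Filter Complex Topology
open Pool.Agent.TH612.GS (mP zN)
open Pool.Agent.Y752.QF
open Pool.Agent.Y752.SR (sum_inv_le logp_le chs tls EE EEp_le)
open Pool.Agent.Y165.QF.Bx (box mem_box pr cf FF rest diff_eq rest_sum)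
open scoped ENNReal

noncomputable section

lemma chs_sv (s : Bool) (n : ℕ) (g : ℝ) : chs true n (if s then g else -g) = chs s n g := by
  cases s
  · simp only [chs, if_true, if_false, Bool.false_eq_true]
    congr 1
    push_cast
    ring
  · simp only [chs, if_true]

theorem BX3 : S_BX3 := by
  classical
  intro k ε hε
  obtain ⟨C1, hC1, hMV⟩ := Pool.Agent.TH928.GS.t_MV
  set δ : ℝ := ε / (2 * (k + 1)) with hδ
  have hδ0 : 0 < δ := by rw [hδ]; positivity
  obtain ⟨C2, hC2, hE⟩ := EEp_le hδ0 k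
  obtain ⟨C3, hC3, hL⟩ := logp_le hδ0 1
  refine ⟨max 1 ((2 * C1) ^ k * C2 * C3), le_max_left _ _, ?_⟩
  intro σ H N Y hN hNY hYH
  have hN1 : (1:ℝ) ≤ N := by exact_mod_cast hN
  have hN0 : (0:ℝ) < N := by linarith
  have hY : 1 ≤ Y := by nlinarith
  have hY1 : (1:ℝ) ≤ Y := by exact_mod_cast hY
  have hH : 1 ≤ H := hY1.trans hYH
  have hH0 : 0 < H := by linarith
  have h1 := tls hC1 hMV hH k σ (rest k Y N) (fun n => n) cf 1
    (fun n hn i => by
      have h := mem_box.1 (Finset.mem_filter.1 hn).1 i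
      refine ⟨h.1, ?_⟩
      have : (n i : ℝ) ≤ Y := by exact_mod_cast h.2
      exact this.trans hYH)
    (fun n hn => by
      rw [Finset.card_le_one]
      intro a ha b hb
      rw [(Finset.mem_filter.1 ha).2, (Finset.mem_filter.1 hb).2])
  have e1 : ∀ γ : Fin k → ℝ, DS Y (sv σ γ) - AN2 N (sv σ γ) =
      ∑ n ∈ rest k Y N, cf n * ∏ j, chs (σ j) (n j) (γ j) := by
    intro γ
    rw [diff_eq hNY (sv σ γ)]
    refine Finset.sum_congr rfl fun n _ => ?_
    unfold FF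
    congr 1
    refine Finset.prod_congr rfl fun j _ => ?_
    unfold sv
    exact chs_sv (σ j) (n j) (γ j)
  simp only [e1]
  refine h1.trans (ENNReal.ofReal_le_ofReal ?_)
  rw [Nat.cast_one, one_mul]
  have h2 := rest_sum (k := k) hN hY
  have hYk : 1 ≤ Y ^ k := Nat.one_le_pow _ _ hY
  have hYk1 : (1:ℝ) ≤ (Y : ℝ) ^ k := one_le_pow₀ hY1
  have h3 := hE (Y ^ k) hYk
  push_cast at h3
  have h4 := hL ((Y : ℝ) ^ k) hYk1
  rw [pow_one] at h4
  have h5 : ((Y : ℝ) ^ k) ^ δ ≤ H ^ (ε / 2) := by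
    rw [← Real.rpow_natCast, ← Real.rpow_mul (by positivity)]
    calc (Y : ℝ) ^ ((k : ℝ) * δ) ≤ (Y : ℝ) ^ (ε / 2) := by
          refine Real.rpow_le_rpow_of_exponent_le hY1 ?_
          rw [hδ]
          have hk : (0:ℝ) ≤ k := Nat.cast_nonneg k
          rw [mul_div_assoc', div_le_div_iff₀ (by positivity) (by norm_num)]
          nlinarith
      _ ≤ H ^ (ε / 2) := Real.rpow_le_rpow (by positivity) hYH (by positivity)
  have h30 : (EE (Y ^ k) : ℝ) ^ k ≤ C2 * H ^ (ε / 2) :=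
    h3.trans (mul_le_mul_of_nonneg_left h5 (by linarith))
  have h40 : 1 + Real.log ((Y : ℝ) ^ k) ≤ C3 * H ^ (ε / 2) :=
    h4.trans (mul_le_mul_of_nonneg_left h5 (by linarith))
  have hlog0 : 0 ≤ 1 + Real.log ((Y : ℝ) ^ k) := by
    have := Real.log_nonneg hYk1
    linarith
  have hHe : H ^ (ε / 2) * H ^ (ε / 2) = H ^ ε := by
    rw [← Real.rpow_add hH0]
    congr 1
    ring
  calc (2 * C1 * H) ^ k * ∑ q ∈ rest k Y N, ‖cf q‖ ^ 2
      ≤ (2 * C1 * H) ^ k * ((EE (Y ^ k) : ℝ) ^ k * (1 + Real.log ((Y : ℝ) ^ k)) / N) := by gcongr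
    _ ≤ (2 * C1 * H) ^ k * ((C2 * H ^ (ε / 2)) * (C3 * H ^ (ε / 2)) / N) := by gcongr
    _ = ((2 * C1) ^ k * C2 * C3) * H ^ k * (H ^ (ε / 2) * H ^ (ε / 2)) / N := by
        rw [mul_pow (2 * C1) H]; ring
    _ = ((2 * C1) ^ k * C2 * C3) * H ^ k * H ^ ε / N := by rw [hHe]
    _ ≤ _ := by
        gcongr
        exact le_max_right _ _

end

end Pool.Agent.Y252.QF.Bx3
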